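import Pool.Agent.Helper79_WRA.StmtC

/-!
WRA, module AFA: the chains of `ℓ`-subgroups of `AGL_1(F)`.
-/

open scoped BigOperators

noncomputable section

namespace Pool.Agent.Helper59_WRA

open Pool.Agent.Helper51_AWC Pool.Agent.Helper79_WRA

section aff

variable {F : Type} [Field F]

/-- the natural action -/
@[instance_reducible] def act1 : MulAction (Aff F) F where
  smul x t := (x.a : F) * t + x.b
  one_smul t := by
    show ((1 : Aff F).a : F) * t + (1 : Aff F).b = t
    rw [Aff.one_a, Aff.one_b, Units.val_one]; ring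
  mul_smul x y t := by
    show ((x * y).a : F) * t + (x * y).b = (x.a : F) * ((y.a : F) * t + y.b) + x.b
    rw [Aff.mul_a, Aff.mul_b, Units.val_mul]; ring

/-- the stabiliser of the point `y` -/
def Cy (y : F) : Subgroup (Aff F) where
  carrier := {x | (x.a : F) * y + x.b = y}
  one_mem' := by
    show ((1 : Aff F).a : F) * y + (1 : Aff F).b = y
    rw [Aff.one_a, Aff.one_b, Units.val_one]; ring
  mul_mem' := by
    intro x z hx hz
    show ((x * z).a : F) * y + (x * z).b = y
    have hx' : (x.a : F) * y + x.b = y := hx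
    have hz' : (z.a : F) * y + z.b = y := hz
    rw [Aff.mul_a, Aff.mul_b, Units.val_mul]
    calc (x.a : F) * z.a * y + ((x.a : F) * z.b + x.b)
        = (x.a : F) * ((z.a : F) * y + z.b) + x.b := by ring
      _ = y := by rw [hz', hx']
  inv_mem' := by
    intro x hx
    show ((x⁻¹).a : F) * y + (x⁻¹).b = y
    have hx' : (x.a : F) * y + x.b = y := hx
    rw [Aff.inv_a, Aff.inv_b]
    calc ((x.a⁻¹ : Fˣ) : F) * y + -((x.a⁻¹ : Fˣ) : F) * x.b
        = ((x.a⁻¹ : Fˣ) : F) * (((x.a : F) * y + x.b) - x.b) := by rw [hx']; ring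
      _ = (((x.a⁻¹ : Fˣ) : F) * (x.a : F)) * y := by ring
      _ = y := by rw [← Units.val_mul, inv_mul_cancel, Units.val_one, one_mul]

theorem mem_Cy {y : F} {x : Aff F} : x ∈ Cy y ↔ (x.a : F) * y + x.b = y := Iff.rfl

theorem Cy_unique {y z : F} {x : Aff F} (hx : x ∈ Cy y) (hx' : x ∈ Cy z) (h1 : x ≠ 1) :
    y = z := by
  rw [mem_Cy] at hx hx'
  by_contra hne
  have h2 : ((x.a : F) - 1) * (y - z) = 0 := by
    linear_combination hx - hx'
  rcases mul_eq_zero.1 h2 with h | h
  · have ha : (x.a : F) = 1 := sub_eq_zero.1 h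
    apply h1
    apply Aff.ext
    · exact Units.ext ha
    · rw [ha] at hx
      show x.b = 0
      linear_combination hx
  · exact hne (sub_eq_zero.1 h)

theorem Cy_comm {y : F} {x z : Aff F} (hx : x ∈ Cy y) (hz : z ∈ Cy y) : x * z = z * x := by
  rw [mem_Cy] at hx hz
  have hxb : x.b = y - (x.a : F) * y := by linear_combination hx
  have hzb : z.b = y - (z.a : F) * y := by linear_combination hz
  apply Aff.ext
  · rw [Aff.mul_a, Aff.mul_a, mul_comm]
  · rw [Aff.mul_b, Aff.mul_b, hxb, hzb]; ring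

/-- the translation by `y` -/
def tra (y : F) : Aff F := ⟨1, y⟩

theorem mem_C0 {x : Aff F} : x ∈ Aff.C0 F ↔ x.b = 0 := Iff.rfl

theorem conj_C0 (y : F) : conjS (tra y) (Aff.C0 F) = Cy y := by
  ext x
  rw [mem_conjS, mem_C0, mem_Cy]
  simp only [Aff.mul_b, Aff.mul_a, Aff.inv_a, Aff.inv_b, tra, inv_one, Units.val_one, one_mul]
  constructor
  · intro h; linear_combination h
  · intro h; linear_combination h

/-- conjugation moves the fixed point -/
theorem Cy_conj {y : F} {g x : Aff F} (hx : g⁻¹ * x * g ∈ Cy y) :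
    x ∈ Cy ((g.a : F) * y + g.b) := by
  let _ : MulAction (Aff F) F := act1
  have h1 : ∀ (u : Aff F) (t : F), u ∈ Cy t ↔ u • t = t := fun u t => Iff.rfl
  have h2 : (g.a : F) * y + g.b = g • y := rfl
  rw [h1] at hx
  rw [h2, h1]
  rw [mul_smul, mul_smul, inv_smul_eq_iff] at hx
  exact hx

variable (ℓ : ℕ)

/-- the Sylow `ℓ`-subgroup of the stabiliser of `y` -/
def Py (y : F) : Subgroup (Aff F) where
  carrier := {x | x ∈ Cy y ∧ ∃ k, x.a ^ (ℓ ^ k) = 1}
  one_mem' := ⟨(Cy y).one_mem, 0, by rw [Aff.one_a, one_pow]⟩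
  mul_mem' := by
    rintro x z ⟨hx, k, hk⟩ ⟨hz, m, hm⟩
    refine ⟨(Cy y).mul_mem hx hz, k + m, ?_⟩
    rw [Aff.mul_a, mul_pow, pow_add]
    have e1 : x.a ^ (ℓ ^ k * ℓ ^ m) = 1 := by rw [pow_mul, hk, one_pow]
    have e2 : z.a ^ (ℓ ^ k * ℓ ^ m) = 1 := by rw [mul_comm, pow_mul, hm, one_pow]
    rw [e1, e2, one_mul]
  inv_mem' := by
    rintro x ⟨hx, k, hk⟩
    refine ⟨(Cy y).inv_mem hx, k, ?_⟩
    rw [Aff.inv_a, inv_pow, hk, inv_one]

theorem mem_Py {y : F} {x : Aff F} : x ∈ Py ℓ y ↔ x ∈ Cy y ∧ ∃ k, x.a ^ (ℓ ^ k) = 1 := Iff.rfl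

theorem pow_a (x : Aff F) (n : ℕ) : (x ^ n).a = x.a ^ n := by
  induction n with
  | zero => rw [pow_zero, pow_zero, Aff.one_a]
  | succ n ih => rw [pow_succ, pow_succ, Aff.mul_a, ih]

theorem Py_le (y : F) : Py ℓ y ≤ Cy y := fun _ h => h.1

theorem Py_pgroup (y : F) : IsPGroup ℓ (Py ℓ y) := by
  intro x
  obtain ⟨hx, k, hk⟩ := x.2
  refine ⟨k, ?_⟩
  apply Subtype.ext
  rw [Subgroup.coe_pow, Subgroup.coe_one]
  have h1 : (x : Aff F) ^ ℓ ^ k ∈ Cy y := (Cy y).pow_mem hx _
  apply Aff.ext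
  · rw [pow_a, hk, Aff.one_a]
  · rw [mem_Cy, pow_a, hk, Units.val_one] at h1
    rw [Aff.one_b]
    linear_combination h1

theorem le_Py {y : F} {D : Subgroup (Aff F)} (hD : IsPGroup ℓ D) (h : D ≤ Cy y) :
    D ≤ Py ℓ y := by
  intro x hx
  refine ⟨h hx, ?_⟩
  obtain ⟨k, hk⟩ := hD ⟨x, hx⟩
  refine ⟨k, ?_⟩
  have := congrArg (fun z : D => ((z : Aff F)).a) hk
  simp only [Subgroup.coe_pow, Subgroup.coe_one, Aff.one_a] at this
  rw [← pow_a]
  exact this

variable [Fact ℓ.Prime]

theorem card_pos_dvd [Finite F] (h : ℓ ∣ Nat.card F - 1) : ¬ ℓ ∣ Nat.card F := by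
  have hp : ℓ.Prime := Fact.out
  intro h'
  have h1 : 1 ≤ Nat.card F := Nat.card_pos
  have h2 : ℓ ∣ 1 := by
    have := Nat.dvd_sub h' h
    rwa [Nat.sub_sub_self h1] at this
  exact hp.one_lt.ne' (Nat.dvd_one.1 h2)

/-- a `ℓ`-subgroup has a fixed point -/
theorem exists_fix [Finite F] (h : ℓ ∣ Nat.card F - 1) {D : Subgroup (Aff F)}
    (hD : IsPGroup ℓ D) : ∃ y, D ≤ Cy y := by
  let _ : MulAction (Aff F) F := act1
  obtain ⟨y, hy⟩ := hD.nonempty_fixed_point_of_prime_not_dvd_card F (card_pos_dvd ℓ h)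
  refine ⟨y, ?_⟩
  intro x hx
  exact hy ⟨x, hx⟩

theorem Py_ne_bot [Finite F] (h : ℓ ∣ Nat.card F - 1) (y : F) : Py ℓ y ≠ ⊥ := by
  classical
  have hp : ℓ.Prime := Fact.out
  have := Fintype.ofFinite F
  have hc : ℓ ∣ Nat.card Fˣ := by rw [Nat.card_units]; exact h
  obtain ⟨u, hu⟩ := exists_prime_orderOf_dvd_card' (G := Fˣ) ℓ hc
  intro hbot
  have hmem : (⟨u, y - (u : F) * y⟩ : Aff F) ∈ Py ℓ y := by
    refine ⟨?_, 1, ?_⟩
    · rw [mem_Cy]
      show (u : F) * y + (y - (u : F) * y) = y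
      ring
    · show u ^ (ℓ ^ 1) = 1
      rw [pow_one, ← hu, pow_orderOf_eq_one]
  rw [hbot, Subgroup.mem_bot] at hmem
  have h1 : u = 1 := congrArg Aff.a hmem
  rw [h1, orderOf_one] at hu
  exact hp.one_lt.ne hu

omit [Fact ℓ.Prime] in
theorem fix_unique {D : Subgroup (Aff F)} (hne : D ≠ ⊥) {y z : F} (hy : D ≤ Cy y)
    (hz : D ≤ Cy z) : y = z := by
  obtain ⟨x, hx, hx1⟩ : ∃ x : Aff F, x ∈ D ∧ x ≠ 1 := by
    by_contra hcon
    push Not at hcon
    apply hne
    rw [eq_bot_iff]
    intro x hx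
    rw [Subgroup.mem_bot]
    exact hcon x hx
  exact Cy_unique (hy hx) (hz hx) hx1

omit [Fact ℓ.Prime] in
/-- the normaliser of a nontrivial subgroup of `Cy y` -/
theorem conj_eq_iff {D : Subgroup (Aff F)} (hne : D ≠ ⊥) {y : F} (hy : D ≤ Cy y) (g : Aff F) :
    conjS g D = D ↔ g ∈ Cy y := by
  constructor
  · intro h
    have h1 : D ≤ Cy ((g.a : F) * y + g.b) := by
      intro x hx
      rw [← h, mem_conjS] at hx
      exact Cy_conj (hy hx)
    have := fix_unique hne hy h1
    rw [mem_Cy]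
    exact this.symm
  · intro hg
    ext x
    rw [mem_conjS]
    constructor
    · intro hx
      have h1 : g * (g⁻¹ * x * g) = (g⁻¹ * x * g) * g := Cy_comm hg (hy hx)
      have h2 : g⁻¹ * x * g = x := by
        have h3 : g * (g⁻¹ * x * g) = x * g := by group
        rw [h3] at h1
        exact (mul_right_cancel h1).symm
      rwa [h2] at hx
    · intro hx
      have h1 : g * x = x * g := Cy_comm hg (hy hx)
      have h2 : g⁻¹ * x * g = x := by rw [mul_assoc, ← h1]; group
      rwa [h2]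

omit [Fact ℓ.Prime] in
theorem conjS_bot' (g : Aff F) : conjS g (⊥ : Subgroup (Aff F)) = ⊥ := by
  unfold conjS; exact Subgroup.map_bot _

omit [Fact ℓ.Prime] in
theorem stab_eq {d : Finset (Subgroup (Aff F))} {y : F} (h1 : ∀ D ∈ d, D ≤ Cy y)
    (h2 : ∃ D ∈ d, D ≠ ⊥) : stab d = Cy y := by
  ext g
  rw [mem_stab]
  constructor
  · intro H
    obtain ⟨D, hD, hne⟩ := h2
    exact (conj_eq_iff hne (h1 D hD) g).1 (H D hD)
  · intro hg D hD
    by_cases hne : D = ⊥
    · rw [hne, conjS_bot']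
    · exact (conj_eq_iff hne (h1 D hD) g).2 hg

omit [Fact ℓ.Prime] in
theorem stab_bot : stab ({⊥} : Finset (Subgroup (Aff F))) = ⊤ := by
  rw [eq_top_iff]
  intro g _
  rw [mem_stab]
  intro D hD
  rw [Finset.mem_singleton.1 hD, conjS_bot']

theorem opCore_aff [Finite F] (h : ℓ ∣ Nat.card F - 1) : opCore ℓ (Aff F) = ⊥ := by
  obtain ⟨hn, hp, -⟩ := opCore_spec ℓ (Aff F)
  by_contra hne
  obtain ⟨y, hy⟩ := exists_fix ℓ h hp
  have h1 : tra (1 : F) ∈ Cy y := by
    rw [← conj_eq_iff hne hy]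
    exact opCore_conj ℓ _
  rw [mem_Cy] at h1
  simp only [tra, Units.val_one, one_mul] at h1
  exact one_ne_zero (α := F) (by linear_combination h1)

open Classical in
/-- the closure operator -/
def cl (D : Subgroup (Aff F)) : Subgroup (Aff F) :=
  if h : D ≠ ⊥ ∧ ∃ y : F, D ≤ Cy y then Py ℓ h.2.choose else D

omit [Fact ℓ.Prime] in
theorem cl_bot : cl ℓ (⊥ : Subgroup (Aff F)) = ⊥ := by
  unfold cl
  rw [dif_neg]
  rintro ⟨h, -⟩
  exact h rfl

omit [Fact ℓ.Prime] in
theorem cl_eq {D : Subgroup (Aff F)} (hne : D ≠ ⊥) {y : F} (hy : D ≤ Cy y) :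
    cl ℓ D = Py ℓ y := by
  unfold cl
  have h : D ≠ ⊥ ∧ ∃ y : F, D ≤ Cy y := ⟨hne, y, hy⟩
  rw [dif_pos h, fix_unique hne h.2.choose_spec hy]

end aff

theorem afa : AfaStmt := by
  classical
  intro ℓ _ F _ _ hdvd
  have hFt : Fintype F := Fintype.ofFinite F
  have hcore := opCore_aff (F := F) ℓ hdvd
  refine ⟨hcore, ?_⟩
  intro w hw
  have hps : ∀ D : Subgroup (Aff F), D ∈ psub ℓ (Aff F) ↔ IsPGroup ℓ D := by
    intro D
    rw [mem_psub, hcore]
    exact ⟨fun h => h.2, fun h => ⟨bot_le, h⟩⟩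
  have hPmem : ∀ y : F, Py ℓ y ∈ psub ℓ (Aff F) := fun y => (hps _).2 (Py_pgroup ℓ y)
  have hPne : ∀ y : F, Py ℓ y ≠ ⊥ := Py_ne_bot ℓ hdvd
  have hfix : ∀ D ∈ psub ℓ (Aff F), ∃ y : F, D ≤ Cy y := fun D hD => exists_fix ℓ hdvd ((hps D).1 hD)
  have hcl : ∀ D ∈ psub ℓ (Aff F), D ≠ ⊥ → ∃ y : F, D ≤ Cy y ∧ cl ℓ D = Py ℓ y := by
    intro D hD hne
    obtain ⟨y, hy⟩ := hfix D hD
    exact ⟨y, hy, cl_eq ℓ hne hy⟩
  have hchain : ∀ d ∈ chainsOn (psub ℓ (Aff F)) ⊥, ∀ x ∈ d, x ≠ ⊥ → ∀ y : F, x ≤ Cy y →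
      ∀ z ∈ d, z ≤ Cy y := by
    intro d hd x hx hne y hy z hz
    obtain ⟨hd1, hd2, hd3⟩ := mem_chainsOn.1 hd
    rcases chain_total hd3 hz hx with h | h
    · exact h.trans hy
    · obtain ⟨y', hy'⟩ := hfix z (hd1 hz)
      rw [fix_unique hne hy (h.trans hy')]
      exact hy'
  rw [sum_closure (psub ℓ (Aff F)) ⊥ (cl ℓ)]
  · -- the remaining chains
    have hset : (chainsOn (psub ℓ (Aff F)) ⊥).filter (fun d => ∀ x ∈ d, cl ℓ x = x) =
        insert {⊥} ((Finset.univ : Finset F).image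
          (fun y => ({⊥, Py ℓ y} : Finset (Subgroup (Aff F))))) := by
      ext d
      rw [Finset.mem_filter, Finset.mem_insert, Finset.mem_image]
      constructor
      · rintro ⟨hd, hdc⟩
        obtain ⟨hd1, hd2, hd3⟩ := mem_chainsOn.1 hd
        by_cases hall : ∀ x ∈ d, x = ⊥
        · left
          ext x
          rw [Finset.mem_singleton]
          constructor
          · intro hx; exact hall x hx
          · rintro rfl; exact hd2
        · right
          push Not at hall
          obtain ⟨x, hx, hne⟩ := hall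
          obtain ⟨y, hy, hxy⟩ := hcl x (hd1 hx) hne
          rw [hdc x hx] at hxy
          refine ⟨y, Finset.mem_univ _, ?_⟩
          ext z
          rw [Finset.mem_insert, Finset.mem_singleton]
          constructor
          · rintro (rfl | rfl)
            · exact hd2
            · rw [← hxy]; exact hx
          · intro hz
            by_cases hz0 : z = ⊥
            · left; exact hz0
            · right
              have h1 := hchain d hd x hx hne y hy z hz
              rw [← hdc z hz]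
              exact cl_eq ℓ hz0 h1
      · rintro (rfl | ⟨y, -, rfl⟩)
        · refine ⟨?_, ?_⟩
          · rw [mem_chainsOn]
            refine ⟨?_, Finset.mem_singleton_self _, ?_⟩
            · intro x hx
              rw [Finset.mem_singleton.1 hx, hps]
              exact IsPGroup.of_bot
            · intro a ha b hb hne
              exact absurd ((Finset.mem_singleton.1 ha).trans (Finset.mem_singleton.1 hb).symm) hne
          · intro x hx
            rw [Finset.mem_singleton.1 hx, cl_bot]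
        · refine ⟨?_, ?_⟩
          · rw [mem_chainsOn]
            refine ⟨?_, Finset.mem_insert_self _ _, ?_⟩
            · intro x hx
              rcases Finset.mem_insert.1 hx with rfl | hx
              · rw [hps]; exact IsPGroup.of_bot
              · rw [Finset.mem_singleton.1 hx]; exact hPmem y
            · intro a ha b hb hne
              rw [Finset.mem_coe, Finset.mem_insert, Finset.mem_singleton] at ha hb
              rcases ha with rfl | rfl
              · left; exact bot_le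
              · rcases hb with rfl | rfl
                · right; exact bot_le
                · exact absurd rfl hne
          · intro x hx
            rcases Finset.mem_insert.1 hx with rfl | hx
            · exact cl_bot ℓ
            · rw [Finset.mem_singleton.1 hx]
              exact cl_eq ℓ (hPne y) (Py_le ℓ y)
    rw [hset]
    have hPinj : ∀ y z : F, Py ℓ y = Py ℓ z → y = z := by
      intro y z h
      apply fix_unique (hPne y) (Py_le ℓ y)
      rw [h]; exact Py_le ℓ z
    have hcard2 : ∀ y : F, ({⊥, Py ℓ y} : Finset (Subgroup (Aff F))).card = 2 := fun y =>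
      Finset.card_pair (hPne y).symm
    rw [Finset.sum_insert, Finset.sum_image]
    · have h2 : ∀ y : F, stab ({⊥, Py ℓ y} : Finset (Subgroup (Aff F))) = Cy y := by
        intro y
        apply stab_eq
        · intro D hD
          rcases Finset.mem_insert.1 hD with rfl | hD
          · exact bot_le
          · rw [Finset.mem_singleton.1 hD]; exact Py_le ℓ y
        · exact ⟨Py ℓ y, Finset.mem_insert_of_mem (Finset.mem_singleton_self _), hPne y⟩
      have h3 : ∀ y : F, w (Cy y) = w (Aff.C0 F) := by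
        intro y
        rw [← conj_C0, hw]
      simp_rw [hcard2, h2, h3]
      rw [stab_bot, Finset.card_singleton, Finset.sum_const, Finset.card_univ]
      rw [← Nat.card_eq_fintype_card, nsmul_eq_mul]
      ring
    · intro y _ z _ h
      apply hPinj
      have h1 : Py ℓ y ∈ ({⊥, Py ℓ z} : Finset (Subgroup (Aff F))) := by
        have h0 : ({⊥, Py ℓ y} : Finset (Subgroup (Aff F))) = {⊥, Py ℓ z} := h
        rw [← h0]
        exact Finset.mem_insert_of_mem (Finset.mem_singleton_self _)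
      rcases Finset.mem_insert.1 h1 with h1 | h1
      · exact absurd h1 (hPne y)
      · exact Finset.mem_singleton.1 h1
    · intro h
      obtain ⟨y, -, hy⟩ := Finset.mem_image.1 h
      have h1 := hcard2 y
      rw [hy, Finset.card_singleton] at h1
      exact absurd h1 (by norm_num)
  · intro x hx
    by_cases hx0 : x = ⊥
    · rw [hx0, cl_bot, hps]; exact IsPGroup.of_bot
    · obtain ⟨y, -, h⟩ := hcl x hx hx0
      rw [h]; exact hPmem y
  · intro x hx
    by_cases hx0 : x = ⊥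
    · rw [hx0]; exact bot_le
    · obtain ⟨y, hy, h⟩ := hcl x hx hx0
      rw [h]; exact le_Py ℓ ((hps x).1 hx) hy
  · intro x hx z hz hxz
    by_cases hx0 : x = ⊥
    · rw [hx0, cl_bot]; exact bot_le
    · have hz0 : z ≠ ⊥ := by
        rintro rfl
        exact hx0 (le_bot_iff.1 hxz)
      obtain ⟨y, hy, h⟩ := hcl z hz hz0
      rw [h, cl_eq ℓ hx0 (hxz.trans hy)]
  · intro x hx
    by_cases hx0 : x = ⊥
    · rw [hx0, cl_bot, cl_bot]
    · obtain ⟨y, -, h⟩ := hcl x hx hx0
      rw [h]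
      exact cl_eq ℓ (hPne y) (Py_le ℓ y)
  · exact cl_bot ℓ
  · intro x _; exact bot_le
  · intro d hd x hx hxc
    have hx0 : x ≠ ⊥ := by
      rintro rfl
      rw [cl_bot] at hxc
      exact hxc hx
    obtain ⟨hd1, hd2, hd3⟩ := mem_chainsOn.1 hd
    obtain ⟨y, hy, h⟩ := hcl x (hd1 hx) hx0
    have h1 : stab d = Cy y := stab_eq (hchain d hd x hx hx0 y hy) ⟨x, hx, hx0⟩
    have h2 : stab (insert (cl ℓ x) d) = Cy y := by
      apply stab_eq
      · intro D hD
        rcases Finset.mem_insert.1 hD with rfl | hD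
        · rw [h]; exact Py_le ℓ y
        · exact hchain d hd x hx hx0 y hy D hD
      · exact ⟨x, Finset.mem_insert_of_mem hx, hx0⟩
    rw [h1, h2, Finset.card_insert_of_notMem hxc]
    ring

end Pool.Agent.Helper59_WRA
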