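import Pool.Agent.Helper79_WRA.AsmB

/-!
WRA, module BMB: matching of blocks, second half.
-/

open scoped BigOperators

noncomputable section

namespace Pool.Agent.Helper59_WRA

open Pool.Agent.Helper51_AWC Pool.Agent.Helper79_WRA

section clasL

variable {Λ Γ : Type} [Group Λ] [Group Γ]

theorem clas_conj (ι : Λ →* Γ) (z : Γ) (x y : Λ) : clas ι z (y * x * y⁻¹) = clas ι z x := by
  classical
  have : IsConj z (ι (y * x * y⁻¹)) ↔ IsConj z (ι x) := by
    have h1 : IsConj (ι x) (ι (y * x * y⁻¹)) := by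
      rw [map_mul, map_mul, map_inv]
      exact isConj_iff.2 ⟨ι y, rfl⟩
    exact ⟨fun h => h.trans h1.symm, fun h => h.trans h1⟩
  unfold clas
  simp only [this]

theorem clas_int (ι : Λ →* Γ) (z : Γ) (x : Λ) : IsIntegral ℤ (clas ι z x) := by
  classical
  unfold clas
  split_ifs
  · exact isIntegral_one
  · exact isIntegral_zero

/-- the pairing with the class indicator is the value of the central character -/
theorem val_clas [Finite Λ] (ι : Λ →* Γ) (η : Λ → ℂ) (z : Γ) :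
    val (clas ι z) η = omega ι η z := by
  classical
  have := Fintype.ofFinite Λ
  rw [val_eq, omega_eq]
  congr 1
  apply Finset.sum_congr rfl
  intro x _
  unfold clas
  split_ifs
  · rw [one_mul]
  · rw [zero_mul]

/-- transport of a character along an injective homomorphism -/
theorem exists_push [Finite Λ] [Finite Γ] {ι : Λ →* Γ} (hι : Function.Injective ι)
    {H : Subgroup Γ} (hH : ι.range = H) {χ : Λ → ℂ} (hχ : χ ∈ Irr Λ) :
    ∃ a ∈ IrrS H, ∀ g, omega (MonoidHom.id Γ) a g = omega ι χ g := by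
  classical
  subst hH
  obtain ⟨e, he⟩ : ∃ e : Λ ≃* ι.range, ∀ x, ((e x : ι.range) : Γ) = ι x :=
    ⟨MonoidHom.ofInjective hι, fun x => rfl⟩
  have hψ : (fun h : ι.range => χ (e.symm h)) ∈ Irr ι.range := irr_comp_equiv e.symm hχ
  obtain ⟨a, ha, hax⟩ := exists_IrrS ι.range hψ
  refine ⟨a, ha, ?_⟩
  intro g
  rw [omega_IrrS ha]
  have h1 : (fun h : ι.range => a h) = fun h : ι.range => χ (e.symm h) := funext hax
  rw [h1]
  have := Fintype.ofFinite Λ
  have := Fintype.ofFinite ι.range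
  rw [omega_eq, omega_eq]
  congr 1
  · symm
    apply Fintype.sum_equiv e.toEquiv
    intro x
    have h2 : (ι.range.subtype (e.toEquiv x)) = ι x := he x
    rw [h2]
    have h3 : e.symm (e.toEquiv x) = x := e.symm_apply_apply x
    rw [h3]
  · rw [map_one]

end clasL

theorem bmb (hbm : BmaStmt) (hlb : LabelStmt) (hdz : DzDetStmt) (hps : PosStmt)
    (haf : AformStmt) (heq : EqvStmt) (hex : ExtStmt) (hcl : ClsStmt) (hl2 : Lambda2Stmt) :
    BmbStmt := by
  classical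
  intro ℓ _ M _ hℓ G _ _ hG Ω L _ _ _ _ χ αs μ hχ hαs hμ hval c hc β α hTw lam hlam l hβ hLab
  obtain ⟨hc1, hc2, hc3⟩ := mem_chainsOn.1 hc
  have hcp : ∀ D ∈ c, IsPGroup ℓ D := fun D hD => (mem_psubIn.1 (hc1 hD)).2
  obtain ⟨-, -, hinj, htp, htch, hrange, -, -, hfib⟩ := hl2 ℓ G Ω L c hcp ⟨_, hc2⟩ hc3
  have hαI : ∀ j, α j ∈ Irr G := fun j => (hTw.dz' j).1
  -- the character of the smaller wreath product
  obtain ⟨χ1, hχ1, hval1, -, -⟩ := (hcl G (Dl c Ω) (stab c)).1 α hαI lam hlam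
  -- the block of `Γ`
  obtain ⟨a, ha, hav⟩ := exists_push hinj hrange hχ1
  obtain ⟨χ', hχ', hlab⟩ := hlb ℓ M hℓ (Wreath G Ω L) (topc c G Ω) htp htch a ha
  have hgood : GoodC M c χ' α lam := by
    intro g
    have h1 : red M (omega (MonoidHom.id _) a g) = red M (omega (MonoidHom.id _) χ' g) :=
      congrFun hlab g
    rw [red_eq_iff (omega_IrrS_integral ha g) (omega_integral _ hχ' g), hav g] at h1
    rw [← val_clas, hval1 _ (clas_conj _ g)] at h1
    exact h1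
  -- `χ'` lies over characters of defect zero
  obtain ⟨β', hβ'I, hover⟩ := (hcl G Ω L).2.2 χ' hχ'
  obtain ⟨-, -, hp3, hp4⟩ := hps ℓ M hℓ G hG
  have hβ'D : ∀ i, β' i ∈ DZ ℓ M G := by
    intro i
    refine ⟨hβ'I i, ?_⟩
    intro hLD
    have hE : IsExt (stab c) (triv G (Dl c Ω)) α (ext (stab c) (triv G (Dl c Ω)) α) := by
      have h := hex G (Dl c Ω) (stab c) (triv G (Dl c Ω)) α (isChars_triv.2 hαI)
      unfold ext
      rw [dif_pos h]
      exact h.choose_spec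
    obtain ⟨j, hj⟩ := hdz ℓ M hℓ G Ω L (Dl c Ω) (stab c) (qq c) (stab c).subtype (iota c G Ω)
      (qq_surjective c) (Subgroup.subtype_injective _) (iota_apply c) hfib χ' hχ' β' hβ'I hover
      ⟨i, fun g hg => hp3 (β' i) (hβ'I i) hLD g hg⟩ (triv G (Dl c Ω)) α lam
      (isChars_triv.2 hαI) hE hlam hgood
    obtain ⟨g, hg, hg'⟩ := hp4 (α j) (hαI j) (hTw.dz' j).2
    exact hg' (hj g hg)
  obtain ⟨μ', hμ', hval', -⟩ := (hcl G Ω L).2.1 χ' hχ' β' hβ'I hover
  obtain ⟨⟨l', hl'⟩, hLab'⟩ := hbm ℓ M hℓ G hG Ω L χ' β' μ' hχ' hβ'D hμ' hval' c hc β α hTw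
    lam hlam hgood
  have hL1 := hLab' l' hl'
  -- comparison
  have hβI : ∀ i, β i ∈ Irr G := fun i => (hTw.dz i).1
  have hm1 := ((heq G Ω L β' hβ'I).2.2 μ' hμ' l')
  have hm2 := ((heq G Ω L αs (fun i => (hαs i).1)).2.2 μ hμ l)
  rw [← hl'] at hm1
  rw [← hβ] at hm2
  obtain ⟨hm1a, hm1b⟩ := hm1
  obtain ⟨hm2a, hm2b⟩ := hm2
  have hcmp : ∀ Φ : Wreath G Ω L → ℂ, (∀ x y, Φ (y * x * y⁻¹) = Φ x) →
      (∀ x, IsIntegral ℤ (Φ x)) → Cong M (val Φ χ') (val Φ χ) := by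
    intro Φ hΦ hΦi
    rw [hval' Φ hΦ, hval Φ hΦ, ← hm1b Φ hΦ, ← hm2b Φ hΦ]
    refine haf G Ω L M (triv G Ω) β (isChars_triv.2 hβI) _ hm1a _ hm2a ?_ Φ hΦ hΦi
    intro h hh
    exact (hL1 h hh).symm.trans (hLab h hh)
  intro g
  refine (hgood g).trans ?_
  have h1 := hcmp (clas (MonoidHom.id _) g) (clas_conj _ g) (clas_int _ g)
  rw [val_clas, val_clas] at h1
  exact h1

end Pool.Agent.Helper59_WRA
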